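import Mathlib

set_option maxHeartbeats 400000

namespace Pool.Agent.H.MP_83c24b_al

/-- generalized dihedral group -/
@[ext] structure D (V : Type) where
  /-- sign -/
  s : ℤˣ
  /-- translation -/
  v : V

variable {V W : Type} [AddCommGroup V] [AddCommGroup W]

instance : Mul (D V) := ⟨fun a b => ⟨a.s * b.s, a.v + a.s • b.v⟩⟩
instance : One (D V) := ⟨⟨1, 0⟩⟩
instance : Inv (D V) := ⟨fun a => ⟨a.s, -(a.s • a.v)⟩⟩

@[simp] theorem mul_s (a b : D V) : (a * b).s = a.s * b.s := rfl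
@[simp] theorem mul_v (a b : D V) : (a * b).v = a.v + a.s • b.v := rfl
@[simp] theorem one_s : (1 : D V).s = 1 := rfl
@[simp] theorem one_v : (1 : D V).v = 0 := rfl
@[simp] theorem inv_s (a : D V) : a⁻¹.s = a.s := rfl
@[simp] theorem inv_v (a : D V) : a⁻¹.v = -(a.s • a.v) := rfl

instance : Group (D V) := Group.ofLeftAxioms
  (fun a b c => by ext <;> simp [mul_assoc, mul_smul, add_assoc])
  (fun a => by ext <;> simp) (fun a => by ext <;> simp)

/-- transport -/
def D.map (e : V ≃+ W) : D V ≃* D W where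
  toFun a := ⟨a.s, e a.v⟩
  invFun a := ⟨a.s, e.symm a.v⟩
  left_inv a := by simp
  right_inv a := by simp
  map_mul' a b := by ext <;> simp [Units.smul_def]

variable [Module ℂ V]

theorem comm_refl {a b : D V} (ha : a.s = -1) (h : a * b = b * a) : b = 1 ∨ b = a := by
  have h1 := congrArg D.v h
  rcases Int.units_eq_one_or b.s with hb | hb
  · left
    simp only [mul_v, ha, hb, Units.neg_smul, one_smul] at h1
    have : (2 : ℂ) • b.v = 0 := by rw [two_smul]; linear_combination (norm := abel) -h1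
    exact D.ext hb ((smul_eq_zero.1 this).resolve_left two_ne_zero)
  · right
    simp only [mul_v, ha, hb, Units.neg_smul, one_smul] at h1
    have : (2 : ℂ) • (b.v - a.v) = 0 := by rw [two_smul]; linear_combination (norm := abel) -h1
    exact D.ext (hb.trans ha.symm) (sub_eq_zero.1 ((smul_eq_zero.1 this).resolve_left two_ne_zero))

theorem center [Nontrivial V] : Subgroup.center (D V) = ⊥ := by
  rw [eq_bot_iff]
  intro b hb
  obtain ⟨x, hx⟩ := exists_ne (0 : V)
  rcases comm_refl (a := ⟨-1, 0⟩) rfl (Subgroup.mem_center_iff.1 hb _) with h | h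
  · exact h
  rcases comm_refl (a := ⟨-1, x⟩) rfl (Subgroup.mem_center_iff.1 hb _) with h' | h'
  · exact h'
  exact absurd (congrArg D.v (h'.symm.trans h)) hx

theorem indec [Nontrivial V] (A B : Type) [Group A] [Group B] (e : D V ≃* A × B) :
    Subsingleton A ∨ Subsingleton B := by
  have key : ∀ (A B : Type) [Group A] [Group B] (e : D V ≃* A × B) (a : A),
      (e.symm (a, 1)).s = -1 → Subsingleton B := by
    intro A B _ _ e a ha
    refine subsingleton_of_forall_eq 1 fun b => ?_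
    rcases comm_refl (b := e.symm (1, b)) ha (by simp [← map_mul]) with h | h
    · simpa using congrArg Prod.snd (e.symm.map_eq_one_iff.1 h)
    · simpa using congrArg Prod.snd (e.symm.injective h)
  rcases Int.units_eq_one_or (e.symm ((e ⟨-1, 0⟩).1, 1)).s with h | h
  · left
    refine key B A (e.trans MulEquiv.prodComm) (e ⟨-1, 0⟩).2 ?_
    have h1 : e.symm ((e ⟨-1, 0⟩).1, 1) * e.symm (1, (e ⟨-1, 0⟩).2) = ⟨-1, 0⟩ := by
      simp [← map_mul]
    have h2 := congrArg D.s h1
    rw [mul_s, h, one_mul] at h2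
    exact h2
  · exact Or.inr (key A B e _ h)

/-- coordinates -/
def co {n : ℕ} (a : D (Fin n → ℂ)) : Fin (n + 1) → ℂ := Fin.cons ((a.s : ℤ) : ℂ) a.v

open MvPolynomial in
theorem aff (n : ℕ) : Function.Injective (co (n := n)) ∧
    (∃ S : Set (MvPolynomial (Fin (n + 1)) ℂ),
      Set.range (co (n := n)) = {x | ∀ P ∈ S, eval x P = 0}) ∧
    (∀ i, ∃ P : MvPolynomial (Fin (n + 1) ⊕ Fin (n + 1)) ℂ,
      ∀ a b : D (Fin n → ℂ), co (a * b) i = eval (Sum.elim (co a) (co b)) P) ∧
    ∀ i, ∃ P : MvPolynomial (Fin (n + 1)) ℂ, ∀ a : D (Fin n → ℂ), co a⁻¹ i = eval (co a) P := by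
  refine ⟨fun a b h => ?_, ⟨{X 0 ^ 2 - 1}, ?_⟩, fun i => ?_, fun i => ?_⟩
  · obtain ⟨h1, h2⟩ := Fin.cons_inj.1 h
    exact D.ext (Units.ext (Int.cast_injective h1)) h2
  · ext x
    simp only [Set.mem_range, Set.mem_singleton_iff, forall_eq, Set.mem_setOf_eq, map_sub, map_pow,
      eval_X, map_one, sub_eq_zero]
    constructor
    · rintro ⟨a, rfl⟩
      rcases Int.units_eq_one_or a.s with h | h <;> simp [co, h]
    · intro h
      rcases sq_eq_one_iff.1 h with h | h
      · exact ⟨⟨1, Fin.tail x⟩, by simp [co, ← h]⟩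
      · exact ⟨⟨-1, Fin.tail x⟩, by simp [co, ← h]⟩
  · refine Fin.cases ⟨X (.inl 0) * X (.inr 0), fun a b => by simp [co]⟩ (fun i =>
      ⟨X (.inl i.succ) + X (.inl 0) * X (.inr i.succ), fun a b => ?_⟩) i
    simp [co, Units.smul_def]
  · refine Fin.cases ⟨X 0, fun a => by simp [co]⟩ (fun i => ⟨-(X 0 * X i.succ), fun a => ?_⟩) i
    simp [co, Units.smul_def]

theorem lin (Q : Polynomial ℂ) (h : ∀ x y, Q.eval (x + y) = Q.eval x + Q.eval y) (x : ℂ) :
    Q.eval x = Q.eval 1 * x := by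
  have h0 : Q.eval 0 = 0 := by simpa using h 0 0
  have h1 : ∀ n : ℕ, Q.eval (n : ℂ) = Q.eval 1 * n := by
    intro n
    induction n with
    | zero => simpa using h0
    | succ n ih => rw [Nat.cast_succ, h, ih]; ring
  have : Q = Polynomial.C (Q.eval 1) * Polynomial.X :=
    Polynomial.eq_of_infinite_eval_eq _ _ ((Set.infinite_range_of_injective
      (Nat.cast_injective (R := ℂ))).mono (by rintro _ ⟨n, rfl⟩; simpa using h1 n))
  conv_lhs => rw [this]
  simp

open MvPolynomial in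
theorem nosemi (φ : D (Fin 1 → ℂ) ≃* D (Fin 2 → ℂ)) (σ : ℂ ≃+* ℂ)
    (h : ∀ i, ∃ P : MvPolynomial (Fin 2) ℂ, ∀ g, co (φ g) i = eval (fun j => σ (co g j)) P) :
    False := by
  have hs : ∀ g, (φ g).s = g.s := by
    have h1 : ∀ {V W : Type} [AddCommGroup V] [AddCommGroup W] [Module ℂ V] (φ : D V ≃* D W)
        (g : D V), g.s = 1 → (φ g).s = 1 := by
      intro V W _ _ _ φ g hg
      have : g = ⟨1, (1 / 2 : ℂ) • g.v⟩ * ⟨1, (1 / 2 : ℂ) • g.v⟩ := by
        refine D.ext (by simp [hg]) ?_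
        simp only [mul_v, one_smul, ← add_smul]
        norm_num
      rw [this, map_mul, mul_s, Int.units_mul_self]
    intro g
    rcases Int.units_eq_one_or g.s with hg | hg
    · rw [h1 φ g hg, hg]
    · rcases Int.units_eq_one_or (φ g).s with hg' | hg'
      · have := h1 φ.symm _ hg'
        rw [φ.symm_apply_apply] at this
        rw [this, hg']
      · rw [hg, hg']
  let t : ℂ → D (Fin 1 → ℂ) := fun x => ⟨1, fun _ => σ.symm x⟩
  have ht : ∀ x y, t (x + y) = t x * t y := fun x y => by ext <;> simp [t]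
  have hl : ∀ i : Fin 2, ∃ c, ∀ x, (φ (t x)).v i = c * x := by
    intro i
    obtain ⟨P, hP⟩ := h i.succ
    let Q : Polynomial ℂ := aeval ![1, Polynomial.X] P
    have hQ : ∀ x, (φ (t x)).v i = Q.eval x := by
      intro x
      refine (hP (t x)).trans ?_
      have e1 : (fun j => σ (co (t x) j)) =
          fun i => Polynomial.aeval x ((![1, Polynomial.X] : Fin 2 → Polynomial ℂ) i) := by
        funext j
        fin_cases j <;> simp [co, t]
      rw [← Polynomial.coe_aeval_eq_eval, ← AlgHom.comp_apply, comp_aeval, ← coe_aeval_eq_eval, e1]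
      rfl
    refine ⟨Q.eval 1, fun x => (hQ x).trans (lin Q (fun x y => ?_) x)⟩
    rw [← hQ, ← hQ, ← hQ, ht, map_mul, mul_v, hs]
    simp [t]
  obtain ⟨c, hc⟩ := hl 0
  obtain ⟨d, hd⟩ := hl 1
  have hsur : ∀ w : Fin 2 → ℂ, ∃ x, c * x = w 0 ∧ d * x = w 1 := by
    intro w
    obtain ⟨g, hg⟩ := φ.surjective ⟨1, w⟩
    have h1 : g = t (σ (g.v 0)) := by
      refine D.ext ((hs g).symm.trans (congrArg D.s hg)) (funext fun j => ?_)
      simp [t, Subsingleton.elim j 0]
    exact ⟨σ (g.v 0), by rw [← hc, ← h1, hg], by rw [← hd, ← h1, hg]⟩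
  obtain ⟨x, h1, h2⟩ := hsur ![1, 0]
  obtain ⟨y, h3, h4⟩ := hsur ![0, 1]
  simp only [Matrix.cons_val_zero, Matrix.cons_val_one] at h1 h2 h3 h4
  have : (1 : ℂ) = 0 := by linear_combination -h1 * (d * y) - h4 + c * y * h2
  exact one_ne_zero this

theorem iso : Nonempty ((Fin 1 → ℂ) ≃+ (Fin 2 → ℂ)) := by
  refine ⟨(LinearEquiv.ofRankEq (R := ℚ) _ _ ?_).toAddEquiv⟩
  simp [rank_pi, Complex.rank_rat_complex]

end Pool.Agent.H.MP_83c24b_al
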